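import Pool.Agent.Helper185.BlkFinal
import Pool.Agent.Helper292.ForceCH

/-!
(Ω choose T) and (Ω choose Γ) are consistently distinct: forced form.
-/

namespace Pool.Agent.Results.MP_d9033c_gt.ConsistentlyDistinct

open Pool.Agent.Helper185.Sel

theorem result :
    (∃ (P : Type) (_ : Preorder P), Nonempty P ∧ ∀ p : P,
      p ∈ Pool.Agent.Helper292.ForceCH.OmegaOnePreserved P ∧
      p ∈ Pool.Agent.Helper292.ForceCH.CHHolds P) ∧
    (Cardinal.aleph 1 = Cardinal.continuum.{0} →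
      ∃ X : Set ℝ, X.Nonempty ∧ Choose (OmegaOf (OpenFam X)) (TauOf (OpenFam X)) ∧
        ¬ Choose (OmegaOf (OpenFam X)) (GammaOf (OpenFam X))) := by
  refine ⟨?_, ?_⟩
  · obtain ⟨P, i, h1, h2⟩ := Pool.Agent.Helper292.ForceCH.exists_forcing
    exact ⟨P, i, h1, fun p => ⟨(h2 p).1, (h2 p).2.2⟩⟩
  · intro hCH
    obtain ⟨X, h0, h1, h2⟩ := Pool.Agent.Helper185.Blk.exists_real hCH
    have : Nonempty X := h0.to_subtype
    refine ⟨X, h0, Pool.Agent.Helper185.Blk.split_choose h1, fun h => ?_⟩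
    exact h2 (fun U hU => h U (tau_sub_omega hU))

end Pool.Agent.Results.MP_d9033c_gt.ConsistentlyDistinct
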