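import Pool.Agent.Helper185.BlkFinal

/-!
If (Ω choose T) implies (Ω choose Γ) for all sets of reals, then the continuum hypothesis fails.
-/

namespace Pool.Agent.Results.MP_d9033c_gt.EqualityRefutesCH

open Pool.Agent.Helper185.Sel

/-- If every nonempty set of reals all of whose open ω-covers contain τ-covers has the property that all
its open ω-covers contain γ-covers, then the continuum hypothesis fails. -/
theorem result :
    (∀ X : Set ℝ, X.Nonempty → Choose (OmegaOf (OpenFam X)) (TauOf (OpenFam X)) →
      Choose (OmegaOf (OpenFam X)) (GammaOf (OpenFam X))) →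
      Cardinal.aleph 1 ≠ Cardinal.continuum.{0} := by
  intro h hCH
  obtain ⟨X, h0, h1, h2⟩ := Pool.Agent.Helper185.Blk.exists_real hCH
  have : Nonempty X := h0.to_subtype
  exact h2 (fun U hU => h X h0 (Pool.Agent.Helper185.Blk.split_choose h1) U (tau_sub_omega hU))

end Pool.Agent.Results.MP_d9033c_gt.EqualityRefutesCH
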